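import Mathlib
import Pool.Agent.H69.RcaDefs
import Pool.Agent.H69.Rca4

set_option autoImplicit false

namespace Pool.Agent.Results.MP_b3f678_an.No

open Pool.Agent.H69.Rca

/-- Every reversible abelian cellular automaton that is randomizing in density is strongly
randomizing. -/
theorem result : ∀ (A : Type) [AddCommGroup A] [Fintype A] [TopologicalSpace A]
    [DiscreteTopology A] [MeasurableSpace A] [DiscreteMeasurableSpace A]
    (F : (ℤ → A) → (ℤ → A)), IsACA F → Function.Bijective F → InDensity F → Strong F :=
  fun _ _ _ _ _ _ _ _ hF hb hD => main hF hb hD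

end Pool.Agent.Results.MP_b3f678_an.No
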